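import Pool.Agent.N783.PF.Loc
import Pool.Agent.N835.PQ.Rec
import Pool.Agent.N394.PQ.PRD
import Pool.Agent.N446.M4.Sym

/-!
# Project PF (helper783), part REC: the reciprocity law over a number field

By helper674, after the version over the rational numbers by helper835.
-/

set_option autoImplicit false
set_option linter.all false

open Polynomial IsDedekindDomain Matrix NumberField WithZero
open scoped Classical

namespace Pool.Agent.N674.PF

open Pool.Agent.N352.PJ (Mt Typ dd)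
open Pool.Agent.N874.PP (Ev Sq1 U0)
open Pool.Agent.N202.M4 (hasse hil IsSymbol)
open Pool.Agent.N783.PQ (LocIm tp Gm sg)
open Pool.Agent.N874.JM (LocF)
open Pool.Agent.N783.PF

section gen

variable {g : ℕ} {F L : Type} [Field F] [NumberField F] [Field L] [NumberField L] [Algebra F L]
  {f : (𝓞 F)[X]} {θ : L}

lemma fF_deg (hG : IsGen g f θ) : (fF f).natDegree = 2 * g + 1 := by
  rw [← hG.deg]
  exact hG.mon.natDegree_map _

lemma fF_mon (hG : IsGen g f θ) : (fF f).Monic := hG.mon.map _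

lemma aeval_mod (hG : IsGen g f θ) (P : F[X]) : aeval θ (P %ₘ fF f) = aeval θ P := by
  conv_rhs => rw [← modByMonic_add_div P (fF f)]
  rw [map_add, map_mul, hG.root, zero_mul, add_zero]

lemma repr_aeval (hG : IsGen g f θ) (P : F[X]) (i : Fin (2 * g + 1)) :
    hG.basis.repr (aeval θ P) i = (P %ₘ fF f).coeff i := by
  have hdeg : (P %ₘ fF f).natDegree < 2 * g + 1 := by
    rw [← fF_deg hG]
    refine natDegree_modByMonic_lt P (fF_mon hG) ?_
    intro h
    have := fF_deg hG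
    rw [h, natDegree_one] at this
    omega
  rw [← aeval_mod hG, aeval_eq_sum_range' hdeg,
    ← Fin.sum_univ_eq_sum_range (fun i => (P %ₘ fF f).coeff i • θ ^ i)]
  have e : ∑ i : Fin (2 * g + 1), (P %ₘ fF f).coeff i • θ ^ (i : ℕ) =
      ∑ i : Fin (2 * g + 1), (P %ₘ fF f).coeff i • hG.basis i := by
    refine Finset.sum_congr rfl fun j _ => ?_
    rw [hG.basis_apply]
  rw [e, hG.basis.repr_sum_self]

lemma top_aeval (hG : IsGen g f θ) (P : F[X]) : hG.top (aeval θ P) = tp g (fF f) P := by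
  unfold IsGen.top tp
  rw [Module.Basis.coord_apply, repr_aeval hG]
  rfl

lemma norm_eq (hG : IsGen g f θ) (h : F[X]) :
    Algebra.norm F (AdjoinRoot.mk (fF f) h) = Algebra.norm F (aeval θ h) := by
  have hm := fF_mon hG
  have hd := fF_deg hG
  rw [Algebra.norm_eq_matrix_det hG.basis,
    Algebra.norm_eq_matrix_det ((AdjoinRoot.powerBasis' hm).basis.reindex (finCongr hd))]
  congr 1
  ext i j
  rw [Algebra.leftMulMatrix_eq_repr_mul,
    Algebra.leftMulMatrix_eq_repr_mul, Module.Basis.reindex_apply, hG.basis_apply,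
    PowerBasis.basis_eq_pow, AdjoinRoot.powerBasis'_gen]
  have e1 : aeval θ h * θ ^ (j : ℕ) = aeval θ (h * X ^ (j : ℕ)) := by
    rw [map_mul, map_pow, aeval_X]
  have e2 : AdjoinRoot.mk (fF f) h * AdjoinRoot.root (fF f) ^
      (((finCongr hd).symm j : Fin _) : ℕ) =
      AdjoinRoot.mk (fF f) (h * X ^ (j : ℕ)) := by
    rw [map_mul, map_pow, AdjoinRoot.mk_X]
    rfl
  rw [e1, repr_aeval hG]
  refine (congrArg (fun x => ((AdjoinRoot.powerBasis' hm).basis.reindex (finCongr hd)).repr x i)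
    e2).trans ?_
  rw [Module.Basis.repr_reindex_apply]
  refine (AdjoinRoot.powerBasisAux'_repr_apply_to_fun hm _ _).trans ?_
  rw [AdjoinRoot.modByMonicHom_mk]
  rfl

lemma Gm_det (hG : IsGen g f θ) (h : F[X]) (hα : aeval θ h ≠ 0) : (Gm g (fF f) h).det ≠ 0 := by
  intro h0
  obtain ⟨v, hv, hv0⟩ := Matrix.exists_mulVec_eq_zero_iff.2 h0
  set y : L := ∑ j, v j • hG.basis j with hy
  have hy0 : y ≠ 0 := by
    intro h1
    apply hv
    have h2 := hG.basis.repr_sum_self v
    rw [← hy, h1] at h2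
    rw [← h2]
    simp
  have h1 : ∀ i : Fin (2 * g + 1), hG.top (aeval θ h * y * hG.basis i) = 0 := by
    intro i
    have h2 := congrFun hv0 i
    rw [Pi.zero_apply] at h2
    rw [← h2, hy, Finset.mul_sum, Finset.sum_mul, map_sum]
    unfold Matrix.mulVec dotProduct
    refine Finset.sum_congr rfl fun j _ => ?_
    rw [mul_smul_comm, smul_mul_assoc, map_smul, smul_eq_mul, mul_comm]
    congr 1
    rw [hG.basis_apply, hG.basis_apply]
    have e1 : aeval θ h * θ ^ (j : ℕ) * θ ^ (i : ℕ) = aeval θ (h * X ^ ((i : ℕ) + j)) := by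
      rw [map_mul, map_pow, aeval_X]
      ring
    rw [e1, top_aeval hG]
    rfl
  have h2 : ∀ z : L, hG.top (aeval θ h * y * z) = 0 := by
    intro z
    rw [← hG.basis.sum_repr z, Finset.mul_sum, map_sum]
    refine Finset.sum_eq_zero fun i _ => ?_
    rw [mul_smul_comm, map_smul, h1, smul_zero]
  have h3 := h2 ((aeval θ h * y)⁻¹ * hG.basis (Fin.last (2 * g)))
  rw [← mul_assoc, mul_inv_cancel₀ (mul_ne_zero hα hy0), one_mul] at h3
  unfold IsGen.top at h3
  rw [Module.Basis.coord_apply, Module.Basis.repr_self, Finsupp.single_eq_same] at h3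
  exact one_ne_zero h3

lemma cop (hG : IsGen g f θ) {h : F[X]} (hα : aeval θ h ≠ 0) : IsCoprime h (fF f) := by
  have hirr : Irreducible (fF f) := by
    have hi : IsIntegral F θ := ⟨fF f, fF_mon hG, hG.root⟩
    have h1 := minpoly.dvd F θ hG.root
    have h2 : (minpoly F θ).natDegree = 2 * g + 1 := by
      have h3 : (minpoly F θ).natDegree ≤ 2 * g + 1 := by
        rw [← fF_deg hG]
        exact natDegree_le_of_dvd h1 (fF_mon hG).ne_zero
      by_contra h4
      have h5 : (minpoly F θ).natDegree < 2 * g + 1 := lt_of_le_of_ne h3 h4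
      have h6 : (minpoly F θ) %ₘ fF f = minpoly F θ := by
        rw [modByMonic_eq_self_iff (fF_mon hG)]
        rw [degree_eq_natDegree (minpoly.ne_zero hi), degree_eq_natDegree (fF_mon hG).ne_zero,
          fF_deg hG]
        exact_mod_cast h5
      have h7 : ∀ i : Fin (2 * g + 1), (minpoly F θ).coeff i = 0 := by
        intro i
        have h8 := repr_aeval hG (minpoly F θ) i
        rw [minpoly.aeval, h6] at h8
        rw [← h8]
        simp
      have h9 := h7 ⟨_, h5⟩
      have h10 : (minpoly F θ).leadingCoeff = 1 := minpoly.monic hi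
      unfold leadingCoeff at h10
      simp only at h9
      rw [h9] at h10
      exact zero_ne_one h10
    have h3 : minpoly F θ = fF f := by
      refine (Polynomial.eq_of_monic_of_dvd_of_natDegree_le (minpoly.monic hi) (fF_mon hG) h1
        ?_).symm
      rw [h2, fF_deg hG]
    rw [← h3]
    exact minpoly.irreducible hi
  rw [isCoprime_comm, hirr.coprime_iff_not_dvd]
  rintro ⟨P, hP⟩
  apply hα
  rw [hP, map_mul, hG.root, zero_mul]

end gen

/-! ### The transfer -/

section transfer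

variable {F : Type} [Field F] [NumberField F] {ι : Type} [Fintype ι]

lemma Tf_symm {A : Matrix ι ι F} (hA : A.IsSymm) : (Tf A).IsSymm := by
  ext p q
  rw [Matrix.transpose_apply]
  unfold Tf
  rw [Matrix.of_apply, Matrix.of_apply, hA.apply, mul_comm (Module.finBasis ℚ F q.2)]

lemma Tf_det {A : Matrix ι ι F} (hA : A.det ≠ 0) : (Tf A).det ≠ 0 := by
  intro h0
  obtain ⟨v, hv, hv0⟩ := Matrix.exists_mulVec_eq_zero_iff.2 h0
  set b := Module.finBasis ℚ F with hb
  set y : ι → F := fun j => ∑ l, v (j, l) • b l with hy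
  have h1 : ∀ i k, Algebra.trace ℚ F (b k * (A *ᵥ y) i) = 0 := by
    intro i k
    have h2 := congrFun hv0 (i, k)
    rw [Pi.zero_apply] at h2
    rw [← h2]
    unfold Matrix.mulVec dotProduct
    rw [Finset.mul_sum, map_sum, Fintype.sum_prod_type]
    refine Finset.sum_congr rfl fun j _ => ?_
    simp only [hy]
    rw [Finset.mul_sum, Finset.mul_sum, map_sum]
    refine Finset.sum_congr rfl fun l _ => ?_
    unfold Tf
    rw [Matrix.of_apply, mul_smul_comm, mul_smul_comm, map_smul, smul_eq_mul, mul_comm (v (j, l))]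
    congr 2
    ring
  have h2 : ∀ i, (A *ᵥ y) i = 0 := by
    intro i
    have h3 : ∀ z : F, Algebra.trace ℚ F (z * (A *ᵥ y) i) = 0 := by
      intro z
      rw [← b.sum_repr z, Finset.sum_mul, map_sum]
      refine Finset.sum_eq_zero fun k _ => ?_
      rw [smul_mul_assoc, map_smul, h1, smul_zero]
    by_contra hne
    have h4 := h3 (((A *ᵥ y) i)⁻¹)
    have h5 := Algebra.trace_algebraMap (S := F) (1 : ℚ)
    rw [map_one] at h5
    rw [inv_mul_cancel₀ hne, h5, nsmul_eq_mul, mul_one] at h4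
    have h6 : 0 < Module.finrank ℚ F := Module.finrank_pos
    exact h6.ne' (by exact_mod_cast h4)
  have h3 : y = 0 := Matrix.eq_zero_of_mulVec_eq_zero hA (funext h2)
  apply hv
  funext p
  obtain ⟨j, l⟩ := p
  have h4 : ∑ l, v (j, l) • b l = 0 := congrFun h3 j
  have h5 := Fintype.linearIndependent_iff.1 b.linearIndependent (fun l => v (j, l)) h4 l
  exact h5

/-- a rational diagonal form -/
lemma HV_map (E : Type) [Field E] [CharZero E] (M : Matrix ι ι ℚ) {n : ℕ} (φ : Fin n ≃ ι)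
    {a : Fin n → ℚ} {T : Matrix (Fin n) (Fin n) ℚ} (ha : ∀ i, a i ≠ 0)
    (hT : T * Matrix.diagonal a * Tᵀ = M.submatrix φ φ) :
    HV (M.map (Rat.castHom E)) (hasse (hil E) (List.ofFn fun i => (a i : E))) := by
  refine ⟨n, φ, fun i => (a i : E), T.map (Rat.castHom E), fun i => ?_, ?_, rfl⟩
  · change (a i : E) ≠ 0
    exact_mod_cast ha i
  · have h1 : (M.map (Rat.castHom E)).submatrix φ φ = (M.submatrix φ φ).map (Rat.castHom E) := rfl
    rw [h1, ← hT, Matrix.map_mul, Matrix.map_mul, Matrix.transpose_map]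
    congr 2
    ext i j
    rw [Matrix.map_apply, Matrix.diagonal_apply, Matrix.diagonal_apply]
    split_ifs
    · rfl
    · simp

lemma HV_uniq (h1 : S_HVG) (E : Type) [Field E] [CharZero E] (hs : IsSymbol (hil E))
    (M : Matrix ι ι ℚ) (hM : M.IsSymm) (hd : M.det ≠ 0) {ε ε' : ℤ}
    (h : HV (M.map (Rat.castHom E)) ε) (h' : HV (M.map (Rat.castHom E)) ε') : ε = ε' := by
  refine (h1 E hs ι (M.map (Rat.castHom E)) ?_ ?_).2.1 ε ε' h h'
  · rw [Matrix.IsSymm, ← Matrix.transpose_map, hM.eq]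
  · rw [← RingHom.mapMatrix_apply, ← RingHom.map_det]
    intro h0
    exact hd ((map_eq_zero_iff _ (Rat.castHom E).injective).1 h0)

end transfer

lemma pr_eq {K : Type} [Field K] [NumberField K] {p q : ℕ} (hp : p.Prime) (hq : q.Prime)
    {𝔓 : HeightOneSpectrum (𝓞 K)} (h1 : (p : 𝓞 K) ∈ 𝔓.asIdeal) (h2 : (q : 𝓞 K) ∈ 𝔓.asIdeal) :
    p = q := by
  by_contra hne
  have hc : IsCoprime (p : ℤ) (q : ℤ) :=
    Nat.isCoprime_iff_coprime.2 ((Nat.coprime_primes hp hq).2 hne)
  obtain ⟨u, v, huv⟩ := hc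
  have h3 : (1 : 𝓞 K) ∈ 𝔓.asIdeal := by
    have := congrArg (Int.cast : ℤ → 𝓞 K) huv
    push_cast at this
    rw [← this]
    exact 𝔓.asIdeal.add_mem (𝔓.asIdeal.mul_mem_left _ h1) (𝔓.asIdeal.mul_mem_left _ h2)
  exact 𝔓.isPrime.ne_top ((Ideal.eq_top_iff_one _).2 h3)

/-- **The reciprocity law.** -/
theorem rec (h1 : S_HVG) (h2 : S_TRP) (h3 : S_TRR) (h4 : S_ISO1) (h5 : S_ISO2) (h6 : S_HQ) :
    S_REC := by
  intro g W F L _ _ _ _ _ f θ S 𝔮 r P hg hG hsf hS hF 𝔔 h𝔔 h hα hsq hev hl2 hlR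
  have hα1 : aeval θ (1 : F[X]) ≠ 0 := by
    rw [map_one]
    exact one_ne_zero
  obtain ⟨A, hA⟩ : ∃ A : Mt g F, A = Gm g (fF f) 1 := ⟨_, rfl⟩
  obtain ⟨B, hB⟩ : ∃ B : Mt g F, B = Gm g (fF f) h := ⟨_, rfl⟩
  have hAs : A.IsSymm := by rw [hA]; exact Pool.Agent.N835.PQ.Gm_symm g _ _
  have hBs : B.IsSymm := by rw [hB]; exact Pool.Agent.N835.PQ.Gm_symm g _ _
  have hAd : A.det ≠ 0 := by rw [hA]; exact Gm_det hG 1 hα1
  have hBd : B.det ≠ 0 := by rw [hB]; exact Gm_det hG h hα
  have hAd' : @Matrix.det (Fin (2 * g + 1)) (fun a b => Classical.propDecidable (a = b)) _ F _ A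
      ≠ 0 := by convert hAd
  have hBd' : @Matrix.det (Fin (2 * g + 1)) (fun a b => Classical.propDecidable (a = b)) _ F _ B
      ≠ 0 := by convert hBd
  have hTA : (Tf A).det ≠ 0 := by convert Tf_det hAd'
  have hTB : (Tf B).det ≠ 0 := by convert Tf_det hBd'
  have hTAs := Tf_symm hAs
  have hTBs := Tf_symm hBs
  -- diagonal forms
  obtain ⟨n, φ⟩ : ∃ n : ℕ, Nonempty (Fin n ≃ Fin (2 * g + 1) × Fin (Module.finrank ℚ F)) :=
    ⟨_, ⟨(Fintype.equivFin _).symm⟩⟩
  obtain ⟨φ⟩ := φ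
  obtain ⟨a, T, ha, -, hT⟩ := Pool.Agent.N835.PQ.exists_diag ((Tf A).submatrix φ φ)
    (by rw [Matrix.IsSymm, Matrix.transpose_submatrix, hTAs.eq])
    (by rw [Matrix.det_submatrix_equiv_self]; exact hTA)
  obtain ⟨b, R, hb, -, hR⟩ := Pool.Agent.N835.PQ.exists_diag ((Tf B).submatrix φ φ)
    (by rw [Matrix.IsSymm, Matrix.transpose_submatrix, hTBs.eq])
    (by rw [Matrix.det_submatrix_equiv_self]; exact hTB)
  have hsym := Pool.Agent.N446.M4.sym_
  have hVA : ∀ (E : Type) [Field E] [CharZero E], HV ((Tf A).map (Rat.castHom E))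
      (hasse (hil E) (List.ofFn fun i => (a i : E))) := fun E _ _ => HV_map E _ φ ha hT
  have hVB : ∀ (E : Type) [Field E] [CharZero E], HV ((Tf B).map (Rat.castHom E))
      (hasse (hil E) (List.ofFn fun i => (b i : E))) := fun E _ _ => HV_map E _ φ hb hR
  have hcop := cop hG hα
  have hnorm : IsSquare (Algebra.norm F (AdjoinRoot.mk (fF f) h)) := by
    rw [norm_eq hG]
    exact hsq
  obtain ⟨hisoW, hisoR⟩ := h4 F g f h hG.mon hG.deg hcop hnorm
  rw [← hA, ← hB] at hisoW hisoR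
  have hSp : ∀ q ∈ S, q.Prime := fun q hq => (hS q hq).1
  have hQm : ∀ q ∈ S, (q : 𝓞 L) ∈ (𝔔 q).asIdeal := by
    intro q hq
    have h7 := (h𝔔 q hq).1 (q : 𝓞 F) (hS q hq).2.2.2.2.2.2.1
    rwa [map_natCast] at h7
  set ε : ℕ → ℤ := fun q => if ¬ Ev (𝔔 q) (aeval θ h) ∧ ¬ Sq1 (𝔔 q) (aeval θ h * ((q : L) * θ))
    then -1 else 1 with hε
  have hT1 : @Matrix.det _ (fun a b => Classical.propDecidable (a = b)) _ ℚ _ (Tf A) ≠ 0 := by
    convert hTA
  have hT2 : @Matrix.det _ (fun a b => Classical.propDecidable (a = b)) _ ℚ _ (Tf B) ≠ 0 := by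
    convert hTB
  have key := Pool.Agent.N394.PQ.prd n b a hb ha S hSp
    (by
      have e1 := h3 F (Fin (2 * g + 1)) A B hAs hBs hAd' hBd' (fun σ => hisoR σ (hlR σ)) _ (hVA ℝ)
      exact HV_uniq h1 ℝ Pool.Agent.N835.PQ.symR (Tf B) hTBs hT2 (hVB ℝ) e1)
    (by
      intro p hp hpS
      have hapx : ∀ w : HeightOneSpectrum (𝓞 F), (p : 𝓞 F) ∈ w.asIdeal → Apx w A B := by
        intro w hw
        rcases eq_or_ne p 2 with hp2 | hp2
        · apply hisoW
          apply hl2
          rw [hp2] at hw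
          exact_mod_cast hw
        · rw [hA, hB]
          refine h5 g F L f θ hG hsf w ?_ h hα hsq ?_
          · intro h2w
            apply hp2
            refine pr_eq hp.out Nat.prime_two hw ?_
            exact_mod_cast h2w
          · intro 𝔓 hov
            refine hev 𝔓 fun q hq he => ?_
            have h7 := hQm q hq
            rw [← he] at h7
            have h8 := hov (p : 𝓞 F) hw
            rw [map_natCast] at h8
            have h9 := pr_eq hp.out (hSp q hq) h8 h7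
            rw [h9] at hpS
            exact hpS hq
      have e1 := h2 F p (Fin (2 * g + 1)) A B hAs hBs hAd' hBd' hapx _ (hVA ℚ_[p])
      exact HV_uniq h1 ℚ_[p] (hsym p) (Tf B) hTBs hT2 (hVB ℚ_[p]) e1)
    ε
    (by
      intro q hq
      simp only [hε]
      split_ifs
      · exact Or.inr rfl
      · exact Or.inl rfl)
    (by
      intro q hq hqp
      have hevq : ∀ 𝔓 : HeightOneSpectrum (𝓞 L), (q : 𝓞 L) ∈ 𝔓.asIdeal → 𝔓 ≠ 𝔔 q →
          Ev 𝔓 (aeval θ h) := by
        intro 𝔓 hov hne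
        refine hev 𝔓 fun q' hq' he => ?_
        have h7 := hQm q' hq'
        rw [← he] at h7
        have h8 := pr_eq (hSp q hq) (hSp q' hq') hov h7
        subst h8
        exact hne he
      have hev1 : ∀ 𝔓 : HeightOneSpectrum (𝓞 L), Ev 𝔓 (aeval θ (1 : F[X])) := by
        intro 𝔓
        refine ⟨1, ?_⟩
        rw [map_one, map_one, one_pow]
      have e1 := h6 g W F L f θ S 𝔮 r P hg hG hsf hS q hq (hF q hq) (𝔔 q) (h𝔔 q hq).1
        (h𝔔 q hq).2 h hα hevq
      have e2 := h6 g W F L f θ S 𝔮 r P hg hG hsf hS q hq (hF q hq) (𝔔 q) (h𝔔 q hq).1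
        (h𝔔 q hq).2 1 hα1 (fun 𝔓 _ _ => hev1 𝔓)
      rw [← hB] at e1
      rw [← hA, if_neg (fun hc => hc.1 (hev1 _))] at e2
      have e3 := HV_uniq h1 ℚ_[q] (hsym q) (Tf B) hTBs hT2 (hVB ℚ_[q]) e1
      have e4 := HV_uniq h1 ℚ_[q] (hsym q) (Tf A) hTAs hT1 (hVA ℚ_[q]) e2
      rw [e3, e4, mul_one])
  have hfil : (S.filter fun q => ε q = -1) = S.filter fun q => ¬ Ev (𝔔 q) (aeval θ h) ∧
      ¬ Sq1 (𝔔 q) (aeval θ h * ((q : L) * θ)) := by
    refine Finset.filter_congr fun q _ => ?_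
    simp only [hε]
    split_ifs with h7
    · simp [h7]
    · simp [h7]
  rw [hfil] at key
  exact key

end Pool.Agent.N674.PF
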